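import Pool.Agent.TH210.EU.Ops

/-!
The maximum of `(D/Dt - a) |ω|^θ` and the comparison.
-/

set_option autoImplicit false

open MeasureTheory Set Filter Topology

namespace Pool.Agent.TH210.EU

open Pool.Agent.H708R2.EulerSign Pool.Agent.H708R2.EulerTypeI Pool.Agent.TH340.RC
  Pool.Agent.W786.Max

variable {T : ℝ} {u : ℝ → V → V} {p : ℝ → V → ℝ}

theorem dirv_unit {v : V → V} {x : V} (h0 : vort v x ≠ 0) : dirv v x ⬝ᵥ dirv v x = 1 := by
  have hn := nrm_pos h0
  have d1 : dirv v x = (nrm (vort v x))⁻¹ • vort v x := rfl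
  rw [d1, smul_dotProduct, dotProduct_smul, smul_eq_mul, smul_eq_mul, ← nrm_sq]
  field_simp

/-- bounds on compact time intervals -/
theorem crit_bound (h : IsC2Solution T u p) {s b : ℝ} (hs : 0 < s) (hb : b < T) (θ : ℝ)
    (hθ : 0 < θ) :
    ∃ C : ℝ, 0 ≤ C ∧ ∀ t ∈ Icc s b, ∀ x, nrm (vort (u t) x) ^ θ ≤ C ∧
      (vort (u t) x ≠ 0 → |crit θ (u t) (p t) x| ≤ C ∧ |stretch (u t) x| ≤ C) := by
  obtain ⟨K, hK0, hK⟩ := grad_bound h.sol hb
  obtain ⟨K2, hK20, hK2⟩ := hess_bound h hs hb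
  obtain ⟨M, hM0, hM⟩ := vort_bound h.sol hb
  set C1 : ℝ := 3 * (12 * K) ^ 2 + |θ - 1| * (9 * K) ^ 2 + 9 * K2 with hC1
  have hC10 : 0 ≤ C1 := by positivity
  refine ⟨max (M ^ θ) (max C1 (9 * K)), by positivity, fun t ht x => ⟨?_, fun h0 => ?_⟩⟩
  · exact (Real.rpow_le_rpow (nrm_nonneg _) (hM t ⟨hs.le.trans ht.1, ht.2⟩ x).1 hθ.le).trans
      (le_max_left _ _)
  have hu := dirv_unit h0
  have hgr : ∀ i j, |grad (u t) x i j| ≤ K := fun i j => hK t ⟨hs.le.trans ht.1, ht.2⟩ x i j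
  have hst : |stretch (u t) x| ≤ 9 * K := form_bound hgr hu
  refine ⟨?_, hst.trans ((le_max_right _ _).trans (le_max_right _ _))⟩
  have hH : |dirv (u t) x ⬝ᵥ (hess (p t) x).mulVec (dirv (u t) x)| ≤ 9 * K2 :=
    form_bound (fun i j => hK2 t ht x i j) hu
  have hd : ∀ i, |dirv (u t) x i| ≤ 1 := by
    intro i
    have h2 : dirv (u t) x i * dirv (u t) x i ≤ 1 := by
      rw [← hu]
      exact Finset.single_le_sum (f := fun i => dirv (u t) x i * dirv (u t) x i)
        (fun j _ => mul_self_nonneg _) (Finset.mem_univ i)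
    exact abs_le_one_iff_mul_self_le_one.2 h2
  have ht1 : ∀ i, |turn (u t) x i| ≤ 12 * K := by
    intro i
    have h1 : |((grad (u t) x).mulVec (dirv (u t) x)) i| ≤ 3 * K := by
      simp only [Matrix.mulVec, dotProduct]
      refine (Finset.abs_sum_le_sum_abs _ _).trans ?_
      calc ∑ j, |grad (u t) x i j * dirv (u t) x j| ≤ ∑ _j : Fin 3, K := by
            refine Finset.sum_le_sum fun j _ => ?_
            rw [abs_mul]
            calc |grad (u t) x i j| * |dirv (u t) x j| ≤ K * 1 := by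
                  have := hgr i j; have := hd j
                  gcongr
              _ = K := mul_one K
        _ = 3 * K := by simp
    have h2 : |stretch (u t) x * dirv (u t) x i| ≤ 9 * K := by
      rw [abs_mul]
      calc |stretch (u t) x| * |dirv (u t) x i| ≤ 9 * K * 1 := by
            have := hd i
            gcongr
        _ = 9 * K := mul_one _
    have h3 : turn (u t) x i = ((grad (u t) x).mulVec (dirv (u t) x)) i
        - stretch (u t) x * dirv (u t) x i := by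
      simp [turn]
    rw [h3]
    refine (abs_sub _ _).trans ?_
    linarith
  have htt : turn (u t) x ⬝ᵥ turn (u t) x ≤ 3 * (12 * K) ^ 2 := by
    have : ∀ i, turn (u t) x i * turn (u t) x i ≤ (12 * K) ^ 2 := by
      intro i
      rw [← sq, ← sq_abs]
      have := ht1 i
      gcongr
    simp only [dotProduct, Fin.sum_univ_three]
    nlinarith [this 0, this 1, this 2]
  have ht0 : 0 ≤ turn (u t) x ⬝ᵥ turn (u t) x := dot_self_nonneg _
  refine le_trans ?_ ((le_max_left _ _).trans (le_max_right _ _))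
  unfold crit
  have h5 : |(θ - 1) * stretch (u t) x ^ 2| ≤ |θ - 1| * (9 * K) ^ 2 := by
    rw [abs_mul, abs_pow]
    gcongr
  calc |turn (u t) x ⬝ᵥ turn (u t) x + (θ - 1) * stretch (u t) x ^ 2
        - dirv (u t) x ⬝ᵥ (hess (p t) x).mulVec (dirv (u t) x)|
      ≤ |turn (u t) x ⬝ᵥ turn (u t) x + (θ - 1) * stretch (u t) x ^ 2|
        + |dirv (u t) x ⬝ᵥ (hess (p t) x).mulVec (dirv (u t) x)| := abs_sub _ _
    _ ≤ (|turn (u t) x ⬝ᵥ turn (u t) x| + |(θ - 1) * stretch (u t) x ^ 2|) + 9 * K2 :=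
        add_le_add (abs_add_le _ _) hH
    _ ≤ C1 := by
        rw [abs_of_nonneg ht0]
        linarith

theorem grow_zero {θ : ℝ} (hθ : 0 < θ) (a : ℝ) {v : V → V} {x : V} (h0 : vort v x = 0) :
    grow θ a v x = 0 := by
  unfold grow
  rw [h0]
  have : nrm (0 : V) = 0 := by simp [nrm]
  rw [this, Real.zero_rpow hθ.ne', zero_mul]

/-- the positive part of the maximum of `(D/Dt - a) |ω|^θ` -/
noncomputable def Pm (θ : ℝ) (a : ℝ → ℝ) (u : ℝ → V → V) (t : ℝ) : ℝ :=
  ⨆ x, max (grow θ (a t) (u t) x) 0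

section

variable {θ : ℝ} {a : ℝ → ℝ}

theorem Pm_le {C t : ℝ} (hC : 0 ≤ C) (h : ∀ x, grow θ (a t) (u t) x ≤ C) : Pm θ a u t ≤ C :=
  ciSup_le fun x => max_le (h x) hC

theorem Pm_nonneg (t : ℝ) : 0 ≤ Pm θ a u t := Real.iSup_nonneg fun _ => le_max_right _ _

/-- bounds for the maximum -/
theorem grow_bdd (hθ : 0 < θ) (h : IsC2Solution T u p) {s b : ℝ} (hs : 0 < s) (hb : b < T)
    (ha : ContinuousOn a (Icc s b)) :
    ∃ C : ℝ, 0 ≤ C ∧ ∀ t ∈ Icc s b, ∀ x, grow θ (a t) (u t) x ≤ C := by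
  obtain ⟨C, hC0, hC⟩ := crit_bound h hs hb θ hθ
  obtain ⟨Ca, hCa⟩ := isCompact_Icc.exists_bound_of_continuousOn ha
  refine ⟨C * (θ * C + |Ca|), by positivity, fun t ht x => ?_⟩
  by_cases h0 : vort (u t) x = 0
  · rw [grow_zero hθ _ h0]
    positivity
  obtain ⟨h1, h2⟩ := hC t ht x
  obtain ⟨-, h3⟩ := h2 h0
  unfold grow
  have h4 : θ * stretch (u t) x - a t ≤ θ * C + |Ca| := by
    have h5 : stretch (u t) x ≤ C := (le_abs_self _).trans h3
    have h6 : -a t ≤ |Ca| := by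
      have := hCa t ht
      rw [Real.norm_eq_abs] at this
      exact (neg_le_abs _).trans (this.trans (le_abs_self _))
    have h7 : θ * stretch (u t) x ≤ θ * C := by gcongr
    linarith
  have h8 : 0 ≤ nrm (vort (u t) x) ^ θ := Real.rpow_nonneg (nrm_nonneg _) _
  calc nrm (vort (u t) x) ^ θ * (θ * stretch (u t) x - a t)
      ≤ nrm (vort (u t) x) ^ θ * (θ * C + |Ca|) := by gcongr
    _ ≤ C * (θ * C + |Ca|) := by gcongr

theorem le_Pm (hθ : 0 < θ) (h : IsC2Solution T u p) {t : ℝ} (ht : t ∈ Ioo 0 T) (x : V) :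
    grow θ (a t) (u t) x ≤ Pm θ a u t := by
  obtain ⟨C, hC0, hC⟩ := grow_bdd (a := fun _ => a t) hθ h ht.1 ht.2 continuousOn_const
  have hbd : BddAbove (range fun x => max (grow θ (a t) (u t) x) 0) :=
    ⟨C, by
      rintro _ ⟨y, rfl⟩
      exact max_le (hC t ⟨le_rfl, le_rfl⟩ y) hC0⟩
  exact (le_max_left _ _).trans (le_ciSup hbd x)

/-- the maximum has bounded upward increments -/
theorem Pm_growth (hθ : 0 < θ) (h : IsC2Solution T u p) {s b : ℝ} (hs : 0 < s) (hb : b < T)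
    {a' : ℝ → ℝ} (ha : ∀ t ∈ Icc s b, HasDerivAt a (a' t) t) (ha' : ContinuousOn a' (Icc s b)) :
    ∃ C : ℝ, 0 ≤ C ∧ ∀ r ∈ Icc s b, ∀ t ∈ Icc s b, r ≤ t →
      Pm θ a u t - Pm θ a u r ≤ C * (t - r) := by
  obtain ⟨C, hC0, hC⟩ := crit_bound h hs hb θ hθ
  have hac : ContinuousOn a (Icc s b) := fun t ht => (ha t ht).continuousAt.continuousWithinAt
  obtain ⟨Ca, hCa⟩ := isCompact_Icc.exists_bound_of_continuousOn hac
  obtain ⟨Cb, hCb⟩ := isCompact_Icc.exists_bound_of_continuousOn ha'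
  set D := C * (θ * C + θ * |Ca| * C + |Cb|) with hD
  have hD0 : 0 ≤ D := by positivity
  refine ⟨D, hD0, fun r hr t ht hrt => ?_⟩
  have htT : t < T := ht.2.trans_lt hb
  have hr0 : 0 < r := hs.trans_le hr.1
  have hP0 : 0 ≤ Pm θ a u r := Pm_nonneg r
  have hDt : 0 ≤ D * (t - r) := mul_nonneg hD0 (by linarith)
  have key : ∀ x, grow θ (a t) (u t) x ≤ Pm θ a u r + D * (t - r) := by
    intro x
    by_cases h0 : vort (u t) x = 0
    · rw [grow_zero hθ _ h0]
      linarith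
    obtain ⟨X, hX, hXx⟩ := exists_traj h.sol hr0.le hrt htT x
    have hsub : Icc r t ⊆ Ioo 0 T := fun q hq => ⟨hr0.trans_le hq.1, hq.2.trans_lt htT⟩
    have hne := vort_ne_zero h hX hsub (by rwa [hXx])
    have hd := fun q (hq : q ∈ Icc r t) => grow_deriv h hX hsub hne θ hq
      (ha q ⟨hr.1.trans hq.1, hq.2.trans ht.2⟩).hasDerivWithinAt
    have hbd : ∀ q ∈ Icc r t, ‖nrm (vort (u q) (X q)) ^ θ * (θ * crit θ (u q) (p q) (X q)
        - θ * a q * stretch (u q) (X q) - a' q)‖ ≤ D := by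
      intro q hq
      have hqI : q ∈ Icc s b := ⟨hr.1.trans hq.1, hq.2.trans ht.2⟩
      obtain ⟨h1, h2⟩ := hC q hqI (X q)
      obtain ⟨h3, h4⟩ := h2 (hne q hq)
      have h5 : |a q| ≤ |Ca| := (hCa q hqI).trans (le_abs_self _)
      have h6 : |a' q| ≤ |Cb| := (hCb q hqI).trans (le_abs_self _)
      have h8 : 0 ≤ nrm (vort (u q) (X q)) ^ θ := Real.rpow_nonneg (nrm_nonneg _) _
      rw [Real.norm_eq_abs, abs_mul, abs_of_nonneg h8, hD]
      have h9 : |θ * crit θ (u q) (p q) (X q) - θ * a q * stretch (u q) (X q) - a' q|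
          ≤ θ * C + θ * |Ca| * C + |Cb| := by
        calc |θ * crit θ (u q) (p q) (X q) - θ * a q * stretch (u q) (X q) - a' q|
            ≤ |θ * crit θ (u q) (p q) (X q) - θ * a q * stretch (u q) (X q)| + |a' q| :=
              abs_sub _ _
          _ ≤ (|θ * crit θ (u q) (p q) (X q)| + |θ * a q * stretch (u q) (X q)|) + |a' q| :=
              add_le_add (abs_sub _ _) le_rfl
          _ = (θ * |crit θ (u q) (p q) (X q)| + θ * |a q| * |stretch (u q) (X q)|) + |a' q| := by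
              rw [abs_mul, abs_mul, abs_mul, abs_of_pos hθ]
          _ ≤ θ * C + θ * |Ca| * C + |Cb| := by gcongr
      gcongr
    have h3 := (convex_Icc r t).norm_image_sub_le_of_norm_hasDerivWithin_le hd hbd
      (left_mem_Icc.2 hrt) (right_mem_Icc.2 hrt)
    rw [hXx, Real.norm_eq_abs, Real.norm_eq_abs, abs_of_nonneg (by linarith : 0 ≤ t - r)] at h3
    have h4 := le_Pm (a := a) hθ h (t := r) ⟨hr0, hrt.trans_lt htT⟩ (X r)
    have h5 := (le_abs_self _).trans h3
    linarith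
  have := Pm_le (by linarith) key
  linarith

/-- **The comparison.** -/
theorem decay (hθ : 0 < θ) (h : IsC2Solution T u p) {s b : ℝ} (hs : 0 < s) (hsb : s ≤ b)
    (hb : b < T) {a' B B' : ℝ → ℝ} (ha : ∀ t ∈ Icc s b, HasDerivAt a (a' t) t)
    (ha' : ContinuousOn a' (Icc s b)) (hB : ∀ t ∈ Icc s b, HasDerivAt B (B' t) t)
    (hB' : ContinuousOn B' (Icc s b))
    (hcond : ∀ᵐ t, t ∈ Ioo s b → OnePoint θ (a t) (a' t) (B' t) (u t) (p t)) :
    Pm θ a u b * Real.exp (-B b) ≤ Pm θ a u s * Real.exp (-B s) := by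
  obtain ⟨C, hC0, hC⟩ := Pm_growth hθ h hs hb ha ha'
  have hac : ContinuousOn a (Icc s b) := fun t ht => (ha t ht).continuousAt.continuousWithinAt
  obtain ⟨Cp, hCp0, hCp⟩ := grow_bdd (θ := θ) hθ h hs hb hac
  have hPle : ∀ t ∈ Icc s b, Pm θ a u t ≤ Cp := fun t ht => Pm_le hCp0 (hCp t ht)
  -- Lipschitz bounds for the exponential
  have hEd : ∀ t ∈ Icc s b, HasDerivAt (fun t => Real.exp (-B t)) (Real.exp (-B t) * (-B' t)) t :=
    fun t ht => (hB t ht).neg.exp
  have hBc : ContinuousOn B (Icc s b) := fun t ht => (hB t ht).continuousAt.continuousWithinAt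
  have hEc : ContinuousOn (fun t => Real.exp (-B t)) (Icc s b) := hBc.neg.rexp
  obtain ⟨Ce, hCe⟩ := isCompact_Icc.exists_bound_of_continuousOn hEc
  obtain ⟨Cf, hCf⟩ := isCompact_Icc.exists_bound_of_continuousOn (hEc.mul hB'.neg)
  set L : ℝ → ℝ := fun t => Pm θ a u t * Real.exp (-B t) with hL
  have hL0 : ∀ t, 0 ≤ L t := fun t => mul_nonneg (Pm_nonneg t) (Real.exp_pos _).le
  have hinc : ∀ r ∈ Icc s b, ∀ t ∈ Icc s b, r ≤ t →
      L t - L r ≤ (C * |Ce| + Cp * |Cf|) * (t - r) := by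
    intro r hr t ht hrt
    have h1 := hC r hr t ht hrt
    have hsub : Icc r t ⊆ Icc s b := Icc_subset_Icc hr.1 ht.2
    have h2 := (convex_Icc r t).norm_image_sub_le_of_norm_hasDerivWithin_le
      (f := fun t => Real.exp (-B t)) (f' := fun t => Real.exp (-B t) * (-B' t)) (C := |Cf|)
      (fun q hq => (hEd q (hsub hq)).hasDerivWithinAt)
      (fun q hq => (hCf q (hsub hq)).trans (le_abs_self _))
      (left_mem_Icc.2 hrt) (right_mem_Icc.2 hrt)
    rw [Real.norm_eq_abs, Real.norm_eq_abs, abs_of_nonneg (by linarith : 0 ≤ t - r)] at h2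
    have h3 := (le_abs_self _).trans h2
    have h4 : Real.exp (-B t) ≤ |Ce| :=
      ((le_abs_self _).trans (hCe t ht)).trans (le_abs_self _)
    have h5 : 0 ≤ C * (t - r) := mul_nonneg hC0 (by linarith)
    have h6 := hPle r hr
    have h7 : 0 ≤ Pm θ a u r := Pm_nonneg r
    have h8 : 0 ≤ |Cf| * (t - r) := mul_nonneg (abs_nonneg _) (by linarith)
    calc L t - L r = (Pm θ a u t - Pm θ a u r) * Real.exp (-B t)
          + Pm θ a u r * (Real.exp (-B t) - Real.exp (-B r)) := by simp only [hL]; ring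
      _ ≤ (C * (t - r)) * Real.exp (-B t) + Pm θ a u r * (|Cf| * (t - r)) :=
          add_le_add (mul_le_mul_of_nonneg_right h1 (Real.exp_pos _).le)
            (mul_le_mul_of_nonneg_left h3 h7)
      _ ≤ (C * (t - r)) * |Ce| + Cp * (|Cf| * (t - r)) := by gcongr
      _ = (C * |Ce| + Cp * |Cf|) * (t - r) := by ring
  have hder : ∀ᵐ t, t ∈ Ioo s b → ∀ d, HasDerivAt L d t → d ≤ (0 : ℝ) := by
    filter_upwards [hcond] with t k2 htI d hd
    have htI' : t ∈ Icc s b := Ioo_subset_Icc_self htI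
    by_cases hw : Pm θ a u t = 0
    · have h1 : L t = 0 := by simp only [hL]; rw [hw, zero_mul]
      have h2 : IsLocalMin L t := Eventually.of_forall fun r => by rw [h1]; exact hL0 r
      rw [← hd.deriv, h2.deriv_eq_zero]
    have hwpos : 0 < Pm θ a u t := lt_of_le_of_ne (Pm_nonneg t) (Ne.symm hw)
    rcases k2 htI with hall | ⟨x, hmax, hx⟩
    · exact absurd (le_antisymm (Pm_le le_rfl hall) (Pm_nonneg t)) hw
    have ht0 : 0 < t := hs.trans htI.1
    have htT : t < T := htI.2.trans hb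
    have hgx : 0 < grow θ (a t) (u t) x := by
      by_contra hcon
      push Not at hcon
      exact hw (le_antisymm (Pm_le le_rfl fun y => (hmax y).trans hcon) (Pm_nonneg t))
    have e1 : Pm θ a u t = grow θ (a t) (u t) x :=
      le_antisymm (Pm_le hgx.le hmax) (le_Pm hθ h ⟨ht0, htT⟩ x)
    have hv0 : vort (u t) x ≠ 0 := fun h0 => hgx.ne' (grow_zero hθ _ h0)
    obtain ⟨X, hX, hXx⟩ := exists_traj h.sol hs.le htI.1.le htT x
    have hsub : Icc s t ⊆ Ioo 0 T := fun r hr => ⟨hs.trans_le hr.1, hr.2.trans_lt htT⟩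
    have hne := vort_ne_zero h hX hsub (by rwa [hXx])
    have htt : t ∈ Icc s t := ⟨htI.1.le, le_rfl⟩
    have d1 := grow_deriv h hX hsub hne θ htt (ha t htI').hasDerivWithinAt
    have d4 := d1.mul (hEd t htI').hasDerivWithinAt
    set φ : ℝ → ℝ := fun r => grow θ (a r) (u r) (X r) * Real.exp (-B r) with hφ
    have eφ : φ t = L t := by
      simp only [hφ, hL]
      rw [hXx, e1]
    have leφ : ∀ r ∈ Icc s t, φ r ≤ L r := by
      intro r hr
      simp only [hφ, hL]
      exact mul_le_mul_of_nonneg_right (le_Pm hθ h ⟨hs.trans_le hr.1, hr.2.trans_lt htT⟩ (X r))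
        (Real.exp_pos _).le
    set Φ' := nrm (vort (u t) (X t)) ^ θ * (θ * crit θ (u t) (p t) (X t)
        - θ * a t * stretch (u t) (X t) - a' t) * Real.exp (-B t)
      + grow θ (a t) (u t) (X t) * (Real.exp (-B t) * (-B' t)) with hΦ'
    have d5 : HasDerivWithinAt φ Φ' (Icc s t) t := d4
    have d6 : HasDerivWithinAt L d (Icc s t) t := hd.hasDerivWithinAt
    rw [hasDerivWithinAt_iff_tendsto_slope] at d5 d6
    have hne2 : (𝓝[Icc s t \ {t}] t).NeBot := by
      have : Icc s t \ {t} = Ico s t := by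
        ext r
        simp only [Set.mem_sdiff, mem_Icc, mem_singleton_iff, mem_Ico]
        constructor
        · rintro ⟨⟨h1, h2⟩, h3⟩
          exact ⟨h1, lt_of_le_of_ne h2 h3⟩
        · rintro ⟨h1, h2⟩
          exact ⟨⟨h1, h2.le⟩, h2.ne⟩
      rw [this]
      exact right_nhdsWithin_Ico_neBot htI.1
    have hle : d ≤ Φ' := by
      refine le_of_tendsto_of_tendsto d6 d5 ?_
      filter_upwards [self_mem_nhdsWithin] with r hr
      have hrt : r < t := lt_of_le_of_ne hr.1.2 hr.2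
      rw [slope_def_field, slope_def_field, eφ]
      have hneg : r - t < 0 := by linarith
      rw [div_le_div_right_of_neg hneg]
      have := leφ r hr.1
      linarith
    refine hle.trans ?_
    have hE := Real.exp_pos (-B t)
    have hρ : 0 ≤ nrm (vort (u t) x) ^ θ := Real.rpow_nonneg (nrm_nonneg _) _
    have f4 : Φ' = nrm (vort (u t) x) ^ θ * Real.exp (-B t) *
        (θ * crit θ (u t) (p t) x - θ * (a t + B' t) * stretch (u t) x - a' t
          + a t * B' t) := by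
      rw [hΦ', hXx]
      unfold grow
      ring
    rw [f4]
    refine mul_nonpos_of_nonneg_of_nonpos (by positivity) ?_
    unfold crit
    linarith
  have hfin := growth_of_ae hsb hinc (r := fun _ => 0) intervalIntegrable_const hder
  rw [intervalIntegral.integral_zero] at hfin
  simp only [hL] at hfin
  linarith

/-- The bound of the vorticity. -/
theorem bound (hθ : 0 < θ) (h : IsC2Solution T u p) {s : ℝ} (hs : s ∈ Ioo 0 T)
    {a' B B' A I : ℝ → ℝ} (ha : ∀ t ∈ Ico s T, HasDerivAt a (a' t) t)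
    (ha' : ContinuousOn a' (Ico s T)) (hB : ∀ t ∈ Ico s T, HasDerivAt B (B' t) t)
    (hB' : ContinuousOn B' (Ico s T)) (hA : ∀ t ∈ Ico s T, HasDerivAt A (a t) t)
    (hI : ∀ t ∈ Ico s T, HasDerivAt I (Real.exp (B t - A t)) t) (hI0 : I s = 0)
    (hcond : ∀ᵐ t, t ∈ Ioo s T → OnePoint θ (a t) (a' t) (B' t) (u t) (p t)) :
    ∃ C : ℝ, 0 ≤ C ∧ ∀ t ∈ Ico s T, ∀ x,
      nrm (vort (u t) x) ^ θ ≤ C * (Real.exp (A t) * (1 + I t)) := by
  obtain ⟨M, hM0, hM⟩ := crit_bound h hs.1 hs.2 θ hθ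
  set C1 := Pm θ a u s * Real.exp (-B s) with hC1
  have hC10 : 0 ≤ C1 := mul_nonneg (Pm_nonneg s) (Real.exp_pos _).le
  have hgr : ∀ t ∈ Ico s T, ∀ x, grow θ (a t) (u t) x ≤ C1 * Real.exp (B t) := by
    intro t ht x
    have hsub : Icc s t ⊆ Ico s T := Icc_subset_Ico_right ht.2
    have h1 := decay hθ h hs.1 ht.1 ht.2 (fun r hr => ha r (hsub hr)) (ha'.mono hsub)
      (fun r hr => hB r (hsub hr)) (hB'.mono hsub) (by
        filter_upwards [hcond] with r hr hrI
        exact hr ⟨hrI.1, hrI.2.trans ht.2⟩)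
    have h2 := le_Pm (a := a) hθ h (t := t) ⟨hs.1.trans_le ht.1, ht.2⟩ x
    have h3 : Real.exp (-B t) * Real.exp (B t) = 1 := by
      rw [← Real.exp_add]; simp
    calc grow θ (a t) (u t) x ≤ Pm θ a u t := h2
      _ = Pm θ a u t * Real.exp (-B t) * Real.exp (B t) := by rw [mul_assoc, h3, mul_one]
      _ ≤ C1 * Real.exp (B t) := by gcongr
  have hImono : ∀ t ∈ Ico s T, 0 ≤ I t := by
    intro t ht
    have hm : MonotoneOn I (Ico s T) := by
      refine monotoneOn_of_deriv_nonneg (convex_Ico _ _) ?_ ?_ ?_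
      · exact fun r hr => (hI r hr).continuousAt.continuousWithinAt
      · intro r hr
        exact (hI r (interior_subset hr)).differentiableAt.differentiableWithinAt
      · intro r hr
        rw [(hI r (interior_subset hr)).deriv]
        exact (Real.exp_pos _).le
    rw [← hI0]
    exact hm ⟨le_rfl, hs.2⟩ ht ht.1
  set C2 := M * Real.exp (-A s) + C1 with hC2
  have hC20 : 0 ≤ C2 := by positivity
  refine ⟨C2, hC20, fun t₁ ht₁ x => ?_⟩
  by_cases h0 : vort (u t₁) x = 0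
  · rw [h0]
    have : nrm (0 : V) = 0 := by simp [nrm]
    rw [this, Real.zero_rpow hθ.ne']
    have := hImono t₁ ht₁
    positivity
  obtain ⟨X, hX, hXx⟩ := exists_traj h.sol hs.1.le ht₁.1 ht₁.2 x
  have hsub : Icc s t₁ ⊆ Ico s T := Icc_subset_Ico_right ht₁.2
  have hsub2 : Icc s t₁ ⊆ Ioo 0 T := fun t ht => ⟨hs.1.trans_le ht.1, ht.2.trans_lt ht₁.2⟩
  have hne := vort_ne_zero h hX hsub2 (by rwa [hXx])
  have hd : ∀ t ∈ Icc s t₁, HasDerivWithinAt
      (fun t => nrm (vort (u t) (X t)) ^ θ * Real.exp (-A t) - C1 * I t)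
      (Real.exp (-A t) * grow θ (a t) (u t) (X t) - C1 * Real.exp (B t - A t)) (Icc s t₁) t := by
    intro t ht
    have e1 := pow_deriv h hX hsub2 hne θ ht
    have e2 := (hA t (hsub ht)).neg.exp.hasDerivWithinAt (s := Icc s t₁)
    have e3 := ((hI t (hsub ht)).const_mul C1).hasDerivWithinAt (s := Icc s t₁)
    refine ((e1.mul e2).sub e3).congr_deriv ?_
    simp only [Pi.neg_apply]
    unfold grow
    ring
  have hle : nrm (vort (u t₁) (X t₁)) ^ θ * Real.exp (-A t₁) - C1 * I t₁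
      ≤ nrm (vort (u s) (X s)) ^ θ * Real.exp (-A s) - C1 * I s := by
    refine image_le_of_deriv_right_le_deriv_boundary
      (f := fun t => nrm (vort (u t) (X t)) ^ θ * Real.exp (-A t) - C1 * I t)
      (f' := fun t => Real.exp (-A t) * grow θ (a t) (u t) (X t) - C1 * Real.exp (B t - A t))
      (a := s) (b := t₁)
      (B := fun _ => nrm (vort (u s) (X s)) ^ θ * Real.exp (-A s) - C1 * I s)
      (B' := fun _ => 0) ?_ ?_ le_rfl
      continuousOn_const (fun t ht => hasDerivWithinAt_const _ _ _) ?_ ⟨ht₁.1, le_rfl⟩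
    · exact fun t ht => (hd t ht).continuousWithinAt
    · exact fun t ht => right_of_Icc ht (hd t (Ico_subset_Icc_self ht))
    · intro t ht
      have h1 := hgr t (hsub (Ico_subset_Icc_self ht)) (X t)
      have h2 := Real.exp_pos (-A t)
      have h3 : C1 * Real.exp (B t - A t) = Real.exp (-A t) * (C1 * Real.exp (B t)) := by
        rw [sub_eq_add_neg, Real.exp_add]; ring
      rw [h3]
      nlinarith
  rw [hXx, hI0, mul_zero, sub_zero] at hle
  have h5 : nrm (vort (u s) (X s)) ^ θ ≤ M := (hM s ⟨le_rfl, le_rfl⟩ (X s)).1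
  have h6 : nrm (vort (u t₁) x) ^ θ * Real.exp (-A t₁) ≤ C2 * (1 + I t₁) := by
    have h7 : nrm (vort (u s) (X s)) ^ θ * Real.exp (-A s) ≤ M * Real.exp (-A s) := by gcongr
    have h8 := hImono t₁ ht₁
    have h9 : C2 * (1 + I t₁) = M * Real.exp (-A s) + C1 * I t₁
        + (C1 + M * Real.exp (-A s) * I t₁) := by rw [hC2]; ring
    have h10 : 0 ≤ C1 + M * Real.exp (-A s) * I t₁ := by positivity
    linarith
  have h11 : Real.exp (-A t₁) * Real.exp (A t₁) = 1 := by
    rw [← Real.exp_add]; simp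
  calc nrm (vort (u t₁) x) ^ θ
      = nrm (vort (u t₁) x) ^ θ * Real.exp (-A t₁) * Real.exp (A t₁) := by
        rw [mul_assoc, h11, mul_one]
    _ ≤ C2 * (1 + I t₁) * Real.exp (A t₁) := by gcongr
    _ = C2 * (Real.exp (A t₁) * (1 + I t₁)) := by ring

end

end Pool.Agent.TH210.EU
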