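import Pool.Agent.TH210.EU.Thm
import Pool.Agent.H708R2.EulerTypeI.Sharp

/-!
Linear flows with prescribed vorticity.
-/

set_option autoImplicit false

open MeasureTheory Set Filter
open scoped ENNReal NNReal Topology

namespace Pool.Agent.TH210.EU

open Pool.Agent.H708R2.EulerSign Pool.Agent.H708R2.EulerTypeI

variable {T : ℝ} {y al be : ℝ → ℝ}

/-- The linear flow with vorticity `(0, 0, y)` and stretching rate `al`. -/
noncomputable def ul (y al : ℝ → ℝ) (t : ℝ) (x : V) : V :=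
  ![-(al t / 2) * x 0 - y t / 2 * x 1, y t / 2 * x 0 - al t / 2 * x 1, al t * x 2]

/-- The coefficient of `x₀² + x₁²` in twice the pressure. -/
noncomputable def hl (y al be : ℝ → ℝ) (t : ℝ) : ℝ := be t / 2 - al t ^ 2 / 4 + y t ^ 2 / 4

/-- The pressure of the linear flow; `be` is the derivative of `al`. -/
noncomputable def pl (y al be : ℝ → ℝ) (t : ℝ) (x : V) : ℝ :=
  (hl y al be t * (x 0 ^ 2 + x 1 ^ 2) - (be t + al t ^ 2) * x 2 ^ 2) / 2

/-- The velocity gradient of the linear flow. -/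
noncomputable def Al (y al : ℝ → ℝ) (t : ℝ) : Matrix (Fin 3) (Fin 3) ℝ :=
  !![-(al t / 2), -(y t / 2), 0; y t / 2, -(al t / 2), 0; 0, 0, al t]

lemma ul_eq (y al : ℝ → ℝ) (t : ℝ) : ul y al t = (Al y al t).mulVec := by
  ext x i
  fin_cases i <;> simp [ul, Al, Matrix.mulVec, dotProduct, Fin.sum_univ_three] <;> ring

lemma ul_fderiv (y al : ℝ → ℝ) (t : ℝ) (x : V) :
    HasFDerivAt (ul y al t) (Matrix.mulVecLin (Al y al t)).toContinuousLinearMap x := by
  rw [ul_eq]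
  exact (Matrix.mulVecLin (Al y al t)).toContinuousLinearMap.hasFDerivAt

lemma ul_fderiv_apply (y al : ℝ → ℝ) (t : ℝ) (x : V) (i j : Fin 3) :
    fderiv ℝ (ul y al t) x (Pi.single j 1) i = Al y al t i j := by
  rw [(ul_fderiv y al t x).fderiv]
  simp

lemma ul_grad (y al : ℝ → ℝ) (t : ℝ) (x : V) : grad (ul y al t) x = Al y al t := by
  ext i j
  exact ul_fderiv_apply y al t x i j

lemma ul_vort (y al : ℝ → ℝ) (t : ℝ) (x : V) : vort (ul y al t) x = ![0, 0, y t] := by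
  unfold vort
  rw [ul_grad]
  ext i
  fin_cases i <;> simp [Al]

/-- The eigenvalues of the pressure Hessian of the linear flow. -/
noncomputable def dl (y al be : ℝ → ℝ) (t : ℝ) : V :=
  ![hl y al be t, hl y al be t, -(be t + al t ^ 2)]

lemma pl_fderiv (y al be : ℝ → ℝ) (t : ℝ) (x : V) (i : Fin 3) :
    fderiv ℝ (pl y al be t) x (Pi.single i 1) = dl y al be t i * x i := by
  have h0 : ∀ i : Fin 3, HasFDerivAt (fun x : V => x i)
      (ContinuousLinearMap.proj i : V →L[ℝ] ℝ) x :=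
    fun i => (ContinuousLinearMap.proj i : V →L[ℝ] ℝ).hasFDerivAt
  have h1 : HasFDerivAt (pl y al be t) _ x :=
    (((((h0 0).pow 2).add ((h0 1).pow 2)).const_mul (hl y al be t)).sub
      (((h0 2).pow 2).const_mul (be t + al t ^ 2))).mul_const (1 / 2) |>.congr_of_eventuallyEq
      (Eventually.of_forall fun y => by simp [pl]; ring)
  rw [h1.fderiv]
  fin_cases i <;> simp [dl] <;> ring

lemma pl_hess (y al be : ℝ → ℝ) (t : ℝ) (x : V) :
    hess (pl y al be t) x = Matrix.diagonal (dl y al be t) := by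
  ext i j
  show fderiv ℝ (fun z => fderiv ℝ (pl y al be t) z (Pi.single i 1)) x (Pi.single j 1) = _
  have h0 : (fun z => fderiv ℝ (pl y al be t) z (Pi.single i 1))
      = fun z => dl y al be t i * z i := by
    funext z; exact pl_fderiv y al be t z i
  have h1 : HasFDerivAt (fun z : V => dl y al be t i * z i)
      (dl y al be t i • (ContinuousLinearMap.proj i : V →L[ℝ] ℝ)) x :=
    ((ContinuousLinearMap.proj i : V →L[ℝ] ℝ).hasFDerivAt (x := x)).const_mul (dl y al be t i)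
  rw [h0, h1.fderiv]
  by_cases hij : i = j
  · subst hij; simp
  · simp [Matrix.diagonal_apply_ne _ hij, Pi.single_eq_of_ne hij]

lemma lift_t {f : ℝ → ℝ} (hf : ContDiffOn ℝ (⊤ : ℕ∞) f (Ico 0 T)) :
    ContDiffOn ℝ (⊤ : ℕ∞) (fun z : ℝ × V => f z.1) (Ico 0 T ×ˢ univ) :=
  hf.comp contDiff_fst.contDiffOn fun _ hz => hz.1

/-- The linear flow solves the Euler equations. -/
theorem ul_solution (hy : ContDiffOn ℝ (⊤ : ℕ∞) y (Ico 0 T))
    (hal : ContDiffOn ℝ (⊤ : ℕ∞) al (Ico 0 T)) (hbe : ContDiffOn ℝ (⊤ : ℕ∞) be (Ico 0 T))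
    (hy' : ∀ t ∈ Ico 0 T, HasDerivAt y (al t * y t) t)
    (hal' : ∀ t ∈ Ico 0 T, HasDerivAt al (be t) t) :
    IsSpaceSolution T (ul y al) (pl y al be) := by
  have c : ∀ i : Fin 3, ContDiffOn ℝ (⊤ : ℕ∞) (fun z : ℝ × V => z.2 i) (Ico 0 T ×ˢ univ) :=
    fun i => (contDiff_coord i).contDiffOn
  have cy := lift_t hy
  have ca := lift_t hal
  have cb := lift_t hbe
  have ch : ContDiffOn ℝ (⊤ : ℕ∞) (fun z : ℝ × V => hl y al be z.1) (Ico 0 T ×ˢ univ) := by
    unfold hl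
    exact ((cb.div_const 2).sub ((ca.pow 2).div_const 4)).add ((cy.pow 2).div_const 4)
  refine ⟨?_, ?_, ?_, ?_⟩
  · rw [contDiffOn_pi]
    intro i
    fin_cases i
    · exact ((ca.div_const 2).neg.mul (c 0)).sub ((cy.div_const 2).mul (c 1))
    · exact ((cy.div_const 2).mul (c 0)).sub ((ca.div_const 2).mul (c 1))
    · exact ca.mul (c 2)
  · unfold pl
    exact ((ch.mul (((c 0).pow 2).add ((c 1).pow 2))).sub
      ((cb.add (ca.pow 2)).mul ((c 2).pow 2))).div_const 2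
  · intro t _ x
    unfold divergence
    rw [ul_grad]
    simp [Matrix.trace, Fin.sum_univ_three, Al]
    ring
  · intro t ht x i
    simp only [ul_fderiv_apply, pl_fderiv]
    have hu : UniqueDiffWithinAt ℝ (Ico 0 T) t := uniqueDiffOn_Ico 0 T t ht
    have ha := (hal' t ht).hasDerivWithinAt (s := Ico 0 T)
    have hy := (hy' t ht).hasDerivWithinAt (s := Ico 0 T)
    fin_cases i
    · have h1 : HasDerivWithinAt (fun s => ul y al s x 0) _ (Ico 0 T) t :=
        ((ha.div_const 2).neg.mul_const (x 0)).sub ((hy.div_const 2).mul_const (x 1))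
      simp only [Fin.zero_eta, Fin.isValue]
      rw [h1.derivWithin hu]
      simp [Fin.sum_univ_three, ul, Al, dl, hl]
      ring
    · have h1 : HasDerivWithinAt (fun s => ul y al s x 1) _ (Ico 0 T) t :=
        ((hy.div_const 2).mul_const (x 0)).sub ((ha.div_const 2).mul_const (x 1))
      simp only [Fin.mk_one, Fin.isValue]
      rw [h1.derivWithin hu]
      simp [Fin.sum_univ_three, ul, Al, dl, hl]
      ring
    · have h1 : HasDerivWithinAt (fun s => ul y al s x 2) _ (Ico 0 T) t := ha.mul_const (x 2)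
      simp only [Fin.reduceFinMk, Fin.isValue]
      rw [h1.derivWithin hu]
      simp [Fin.sum_univ_three, ul, Al, dl]
      ring

lemma ul_dirv {t : ℝ} (hy : 0 < y t) (x : V) : dirv (ul y al t) x = ![0, 0, 1] := by
  unfold dirv
  rw [ul_vort, nrm_e2, abs_of_pos hy]
  ext i
  fin_cases i <;> simp [hy.ne']

lemma ul_stretch {t : ℝ} (hy : 0 < y t) (x : V) : stretch (ul y al t) x = al t := by
  unfold stretch
  rw [ul_dirv hy, ul_grad]
  simp [Al, Matrix.mulVec, dotProduct, Fin.sum_univ_three]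

lemma ul_turn {t : ℝ} (hy : 0 < y t) (x : V) : turn (ul y al t) x = 0 := by
  unfold turn
  rw [ul_stretch hy, ul_dirv hy, ul_grad]
  ext i
  fin_cases i <;> simp [Al]

lemma ul_hess {t : ℝ} (hy : 0 < y t) (x : V) :
    dirv (ul y al t) x ⬝ᵥ (hess (pl y al be t) x).mulVec (dirv (ul y al t) x)
      = -(be t + al t ^ 2) := by
  rw [ul_dirv hy, pl_hess]
  simp [Matrix.mulVec_diagonal, dotProduct, Fin.sum_univ_three, dl]

lemma ul_cond {θ a a' b t : ℝ} (hy : 0 < y t)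
    (h : θ * (θ * al t ^ 2 + be t) ≤ θ * (a + b) * al t + a' - a * b) :
    OnePoint θ a a' b (ul y al t) (pl y al be t) := by
  refine Or.inr ⟨0, fun z => ?_, ?_⟩
  · unfold grow
    rw [ul_vort, ul_vort, ul_stretch hy, ul_stretch hy]
  · rw [ul_hess hy, ul_turn hy, ul_stretch hy]
    simp only [dotProduct_zero]
    refine le_trans (le_of_eq ?_) h
    ring

lemma ul_not_bkm {f : ℝ → ℝ} (hy : ∀ t ∈ Ioo 0 T, y t = f t)
    (hf : ∫⁻ t in Ioo 0 T, ENNReal.ofReal (f t) = ∞) : ¬ BKMFinite T (ul y al) := by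
  intro hfin
  unfold BKMFinite at hfin
  refine absurd hfin (not_lt.2 ?_)
  rw [← hf]
  refine setLIntegral_mono' measurableSet_Ioo fun t ht => ?_
  refine le_iSup_of_le 0 ?_
  rw [ul_vort, nrm_e2, ← hy t ht]
  exact ENNReal.ofReal_le_ofReal (le_abs_self _)

/-! ## The comparison function -/

lemma prim_smooth {f : ℝ → ℝ} (hT : 0 < T) (hf : ContDiffOn ℝ (⊤ : ℕ∞) f (Iio T)) :
    ContDiffOn ℝ (⊤ : ℕ∞) (fun t => ∫ r in (0 : ℝ)..t, f r) (Iio T) ∧
      ∀ t ∈ Iio T, HasDerivAt (fun t => ∫ r in (0 : ℝ)..t, f r) (f t) t := by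
  have hd : ∀ t ∈ Iio T, HasDerivAt (fun t => ∫ r in (0 : ℝ)..t, f r) (f t) t := by
    intro t ht
    refine prim_deriv isOpen_Iio hf.continuousOn fun r hr => ?_
    rcases le_total 0 t with h1 | h1
    · rw [uIcc_of_le h1] at hr
      exact hr.2.trans_lt ht
    · rw [uIcc_of_ge h1] at hr
      exact hr.2.trans_lt hT
  refine ⟨?_, hd⟩
  rw [contDiffOn_infty_iff_deriv_of_isOpen isOpen_Iio]
  refine ⟨fun t ht => (hd t ht).differentiableAt.differentiableWithinAt, ?_⟩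
  exact hf.congr fun t ht => (hd t ht).deriv

theorem sharp {θ : ℝ} (hT : 0 < T) (hθ : 0 < θ) {a b : ℝ → ℝ}
    (ha : ContDiffOn ℝ (⊤ : ℕ∞) a (Iio T)) (hb : ContDiffOn ℝ (⊤ : ℕ∞) b (Iio T))
    (hint : ∫⁻ t in Ioo 0 T, ENNReal.ofReal (cmpFun 0 a b t ^ (1 / θ)) = ∞) :
    ∃ (u : ℝ → V → V) (p : ℝ → V → ℝ), IsSpaceSolution T u p ∧
      (∀ t, ∃ A : Matrix (Fin 3) (Fin 3) ℝ, ∀ x, u t x = A.mulVec x) ∧
      (∀ t ∈ Ico 0 T, OnePoint θ (a t) (deriv a t) (b t) (u t) (p t)) ∧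
      ¬ BKMFinite T u := by
  have hsub : Ico 0 T ⊆ Iio T := fun t ht => ht.2
  obtain ⟨cA, dA⟩ := prim_smooth hT ha
  obtain ⟨cD, dD⟩ := prim_smooth hT (hb.sub ha)
  obtain ⟨cI, dI⟩ := prim_smooth hT (f := fun r => Real.exp (∫ q in (0 : ℝ)..r, (b q - a q)))
    cD.exp
  set R : ℝ → ℝ := cmpFun 0 a b with hR
  set A : ℝ → ℝ := fun t => ∫ r in (0 : ℝ)..t, a r with hA
  set D : ℝ → ℝ := fun t => ∫ r in (0 : ℝ)..t, (b r - a r) with hD
  set I : ℝ → ℝ := fun t => ∫ r in (0 : ℝ)..t, Real.exp (D r) with hI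
  have hRe : ∀ t, R t = Real.exp (A t) * (1 + I t) := fun t => rfl
  have hI0 : ∀ t ∈ Ico 0 T, 0 ≤ I t := fun t ht =>
    intervalIntegral.integral_nonneg ht.1 fun r _ => (Real.exp_pos _).le
  have hRpos : ∀ t ∈ Ico 0 T, 0 < R t := by
    intro t ht
    have := hI0 t ht
    rw [hRe]
    positivity
  -- `E = exp B`
  set E : ℝ → ℝ := fun t => Real.exp (A t) * Real.exp (D t) with hE
  have dR : ∀ t ∈ Iio T, HasDerivAt R (a t * R t + E t) t := by
    intro t ht
    have h1 := (dA t ht).exp.mul ((dI t ht).const_add 1)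
    refine (h1.congr_of_eventuallyEq (Eventually.of_forall fun r => ?_)).congr_deriv ?_
    · simp only [Pi.mul_apply]
      exact hRe r
    · rw [hRe]
      simp only [hE, hA, hD, hI]
      ring
  have dE : ∀ t ∈ Iio T, HasDerivAt E (b t * E t) t := by
    intro t ht
    refine ((dA t ht).exp.mul (dD t ht).exp).congr_deriv ?_
    simp only [hE, hA, hD]
    ring
  have cR : ContDiffOn ℝ (⊤ : ℕ∞) R (Ico 0 T) := by
    have h1 : ContDiffOn ℝ (⊤ : ℕ∞) (fun t => Real.exp (A t) * (1 + I t)) (Iio T) :=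
      cA.exp.mul (contDiffOn_const.add cI)
    exact h1.mono hsub
  have cE : ContDiffOn ℝ (⊤ : ℕ∞) E (Ico 0 T) := (cA.exp.mul cD.exp).mono hsub
  have ca := ha.mono hsub
  have cb := hb.mono hsub
  have ca' : ContDiffOn ℝ (⊤ : ℕ∞) (deriv a) (Ico 0 T) :=
    (((contDiffOn_infty_iff_deriv_of_isOpen isOpen_Iio).1 ha).2).mono hsub
  have da : ∀ t ∈ Iio T, HasDerivAt a (deriv a t) t := fun t ht =>
    ((((contDiffOn_infty_iff_deriv_of_isOpen isOpen_Iio).1 ha).1 t ht).differentiableAt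
      (isOpen_Iio.mem_nhds ht)).hasDerivAt
  set y : ℝ → ℝ := fun t => R t ^ (1 / θ) with hy
  set al : ℝ → ℝ := fun t => (a t + E t / R t) / θ with hal
  set be : ℝ → ℝ := fun t => (deriv a t + (b t - a t - E t / R t) * (E t / R t)) / θ with hbe
  have cy : ContDiffOn ℝ (⊤ : ℕ∞) y (Ico 0 T) :=
    cR.rpow_const_of_ne fun t ht => (hRpos t ht).ne'
  have cg : ContDiffOn ℝ (⊤ : ℕ∞) (fun t => E t / R t) (Ico 0 T) :=
    cE.div cR fun t ht => (hRpos t ht).ne'
  have cal : ContDiffOn ℝ (⊤ : ℕ∞) al (Ico 0 T) := (ca.add cg).div_const θ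
  have cbe : ContDiffOn ℝ (⊤ : ℕ∞) be (Ico 0 T) :=
    (ca'.add (((cb.sub ca).sub cg).mul cg)).div_const θ
  have hypos : ∀ t ∈ Ico 0 T, 0 < y t := fun t ht => Real.rpow_pos_of_pos (hRpos t ht) _
  have dy : ∀ t ∈ Ico 0 T, HasDerivAt y (al t * y t) t := by
    intro t ht
    have h1 := (dR t (hsub ht)).rpow_const (p := 1 / θ) (Or.inl (hRpos t ht).ne')
    refine h1.congr_deriv ?_
    have h2 := (hRpos t ht).ne'
    simp only [hy, hal]
    rw [Real.rpow_sub_one h2]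
    field_simp
  have dal : ∀ t ∈ Ico 0 T, HasDerivAt al (be t) t := by
    intro t ht
    have h2 := (hRpos t ht).ne'
    have h1 := ((da t (hsub ht)).add ((dE t (hsub ht)).div (dR t (hsub ht)) h2)).div_const θ
    refine h1.congr_deriv ?_
    simp only [hbe]
    field_simp
    ring
  refine ⟨ul y al, pl y al be, ul_solution cy cal cbe dy dal,
    fun t => ⟨Al y al t, fun x => congrFun (ul_eq y al t) x⟩, fun t ht => ?_,
    ul_not_bkm (f := fun t => R t ^ (1 / θ)) (fun t _ => rfl) hint⟩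
  refine ul_cond (hypos t ht) (le_of_eq ?_)
  simp only [hal, hbe]
  have h2 := (hRpos t ht).ne'
  field_simp
  ring

end Pool.Agent.TH210.EU
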