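import Pool.Agent.TH340.RC.Bd
import Pool.Agent.H708R2.EulerTypeI.Rate

/-!
The stretching rate and the powers of the vorticity along trajectories.
-/

set_option autoImplicit false

open MeasureTheory Set Filter Topology

namespace Pool.Agent.TH210.EU

open Pool.Agent.H708R2.EulerSign Pool.Agent.H708R2.EulerTypeI Pool.Agent.TH340.RC

/-- `(D/Dt - a) |ω|^θ = |ω|^θ (θ α - a)`, where `α` is the stretching rate. -/
noncomputable def grow (θ a : ℝ) (v : V → V) (x : V) : ℝ :=
  nrm (vort v x) ^ θ * (θ * stretch v x - a)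

/-- The condition at one time: the maximum of `(D/Dt - a) |ω|^θ` is not positive, or
`(D/Dt - b) (D/Dt - a) |ω|^θ ≤ 0` at one point where it is attained. -/
def OnePoint (θ a a' b : ℝ) (v : V → V) (q : V → ℝ) : Prop :=
  (∀ x, grow θ a v x ≤ 0) ∨
  ∃ x, (∀ y, grow θ a v y ≤ grow θ a v x) ∧
    θ * (turn v x ⬝ᵥ turn v x + (θ - 1) * stretch v x ^ 2
        - dirv v x ⬝ᵥ (hess q x).mulVec (dirv v x))
      ≤ θ * (a + b) * stretch v x + a' - a * b

theorem dot_pos {y : V} (h : y ≠ 0) : 0 < y ⬝ᵥ y := by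
  rw [← nrm_sq]
  have := nrm_pos h
  positivity

theorem stretch_mul (v : V → V) {x : V} (h0 : vort v x ≠ 0) :
    vort v x ⬝ᵥ (grad v x).mulVec (vort v x) = stretch v x * (vort v x ⬝ᵥ vort v x) := by
  have hn := nrm_pos h0
  have hsq := nrm_sq (vort v x)
  have d1 : dirv v x = (nrm (vort v x))⁻¹ • vort v x := rfl
  unfold stretch
  rw [d1, Matrix.mulVec_smul, smul_dotProduct, dotProduct_smul, smul_eq_mul, smul_eq_mul, ← hsq]
  field_simp

theorem dot_deriv {f g : ℝ → V} {f' g' : V} {s : Set ℝ} {t : ℝ} (hf : HasDerivWithinAt f f' s t)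
    (hg : HasDerivWithinAt g g' s t) :
    HasDerivWithinAt (fun t => f t ⬝ᵥ g t) (f' ⬝ᵥ g t + f t ⬝ᵥ g') s t := by
  have h1 : HasDerivWithinAt (fun t => ∑ i, f t i * g t i)
      (∑ i, (f' i * g t i + f t i * g' i)) s t :=
    HasDerivWithinAt.fun_sum fun i _ =>
      (hasDerivWithinAt_pi.1 hf i).mul (hasDerivWithinAt_pi.1 hg i)
  refine h1.congr_deriv ?_
  simp [dotProduct, Finset.sum_add_distrib]

variable {T : ℝ} {u : ℝ → V → V} {p : ℝ → V → ℝ}

/-- the power of the vorticity along a trajectory -/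
theorem pow_deriv (h : IsC2Solution T u p) {X : ℝ → V} {a b : ℝ} (hX : IsTraj u X a b)
    (hab : Icc a b ⊆ Ioo 0 T) (hne : ∀ t ∈ Icc a b, vort (u t) (X t) ≠ 0) (θ : ℝ) {t : ℝ}
    (ht : t ∈ Icc a b) :
    HasDerivWithinAt (fun t => nrm (vort (u t) (X t)) ^ θ)
      (θ * stretch (u t) (X t) * nrm (vort (u t) (X t)) ^ θ) (Icc a b) t := by
  have hv := vort_deriv h hX hab ht
  have hp := dot_pos (hne t ht)
  have h1 := (dot_deriv hv hv).rpow_const (p := θ / 2) (Or.inl hp.ne')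
  have e : ∀ y : V, nrm y ^ θ = (y ⬝ᵥ y) ^ (θ / 2) := by
    intro y
    rw [← nrm_sq, ← Real.rpow_natCast, ← Real.rpow_mul (nrm_nonneg _)]
    congr 1
    push_cast
    ring
  simp only [e]
  refine h1.congr_deriv ?_
  rw [dotProduct_comm ((grad (u t) (X t)).mulVec _), stretch_mul (u t) (hne t ht),
    Real.rpow_sub_one hp.ne']
  field_simp
  ring

/-- the stretching rate along a trajectory -/
theorem stretch_deriv (h : IsC2Solution T u p) {X : ℝ → V} {a b : ℝ} (hX : IsTraj u X a b)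
    (hab : Icc a b ⊆ Ioo 0 T) (hne : ∀ t ∈ Icc a b, vort (u t) (X t) ≠ 0) {t : ℝ}
    (ht : t ∈ Icc a b) :
    HasDerivWithinAt (fun t => stretch (u t) (X t)) (crit 0 (u t) (p t) (X t)) (Icc a b) t := by
  have hv := vort_deriv h hX hab ht
  have hv2 := vort_deriv2 h hX hab ht
  have hp := dot_pos (hne t ht)
  have h1 := (dot_deriv hv hv2).div (dot_deriv hv hv) hp.ne'
  have e : ∀ s ∈ Icc a b, stretch (u s) (X s)
      = (vort (u s) (X s) ⬝ᵥ (grad (u s) (X s)).mulVec (vort (u s) (X s)))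
        / (vort (u s) (X s) ⬝ᵥ vort (u s) (X s)) := by
    intro s hs
    rw [stretch_mul (u s) (hne s hs)]
    have := dot_pos (hne s hs)
    field_simp
  refine (h1.congr e (e t ht)).congr_deriv ?_
  have h2 := crit_eq 0 (v := u t) (q := p t) (x := X t) (hne t ht)
  rw [div_eq_iff (by positivity), h2]
  simp only [dotProduct_neg, dotProduct_comm ((grad (u t) (X t)).mulVec (vort (u t) (X t)))
    (vort (u t) (X t))]
  ring

theorem crit_add (θ : ℝ) (v : V → V) (q : V → ℝ) (x : V) :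
    crit θ v q x = crit 0 v q x + θ * stretch v x ^ 2 := by
  unfold crit
  ring

/-- `(D/Dt - a) |ω|^θ` along a trajectory -/
theorem grow_deriv (h : IsC2Solution T u p) {X : ℝ → V} {a b : ℝ} (hX : IsTraj u X a b)
    (hab : Icc a b ⊆ Ioo 0 T) (hne : ∀ t ∈ Icc a b, vort (u t) (X t) ≠ 0) (θ : ℝ) {f : ℝ → ℝ}
    {f' t : ℝ} (ht : t ∈ Icc a b) (hf : HasDerivWithinAt f f' (Icc a b) t) :
    HasDerivWithinAt (fun t => grow θ (f t) (u t) (X t))
      (nrm (vort (u t) (X t)) ^ θ * (θ * crit θ (u t) (p t) (X t)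
        - θ * f t * stretch (u t) (X t) - f')) (Icc a b) t := by
  have h1 := pow_deriv h hX hab hne θ ht
  have h2 := ((stretch_deriv h hX hab hne ht).const_mul θ).sub hf
  refine (h1.mul h2).congr_deriv ?_
  rw [crit_add θ]
  simp only [Pi.sub_apply]
  ring

end Pool.Agent.TH210.EU
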