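import Pool.Agent.TH210.EU.Cmp
import Pool.Agent.TH340.RC.Vort

/-!
The criterion, with the explicit comparison function.
-/

set_option autoImplicit false

open MeasureTheory Set Filter Topology
open scoped ENNReal

namespace Pool.Agent.TH210.EU

open Pool.Agent.H708R2.EulerSign Pool.Agent.H708R2.EulerTypeI Pool.Agent.TH340.RC

/-- `R(t) = exp(∫ₛᵗ a) (1 + ∫ₛᵗ exp(∫ₛʳ (b - a)) dr)`, the solution of
`(d/dt - b) (d/dt - a) R = 0` with `R(s) = 1`, `R'(s) = a(s) + 1`. -/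
noncomputable def cmpFun (s : ℝ) (a b : ℝ → ℝ) (t : ℝ) : ℝ :=
  Real.exp (∫ r in s..t, a r) * (1 + ∫ r in s..t, Real.exp (∫ q in s..r, (b q - a q)))

theorem prim_deriv {f : ℝ → ℝ} {U : Set ℝ} (hU : IsOpen U) (hf : ContinuousOn f U) {s t : ℝ}
    (hst : uIcc s t ⊆ U) : HasDerivAt (fun t => ∫ r in s..t, f r) (f t) t := by
  have ht : t ∈ U := hst right_mem_uIcc
  refine intervalIntegral.integral_hasDerivAt_right ((hf.mono hst).intervalIntegrable)
    (hf.stronglyMeasurableAtFilter hU t ht) (hf.continuousAt (hU.mem_nhds ht))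

variable {T : ℝ} {u : ℝ → V → V} {p : ℝ → V → ℝ}

theorem criterion {θ : ℝ} (hθ : 0 < θ) (h : IsC2Solution T u p) {s : ℝ} (hs : s ∈ Ioo 0 T)
    {a b : ℝ → ℝ} (ha : ContDiffOn ℝ 1 a (Ioo 0 T)) (hb : ContinuousOn b (Ioo 0 T))
    (hcond : ∀ᵐ t, t ∈ Ioo s T → OnePoint θ (a t) (deriv a t) (b t) (u t) (p t)) :
    (∃ C : ℝ, ∀ t ∈ Ico s T, ∀ x, nrm (vort (u t) x) ^ θ ≤ C * cmpFun s a b t) ∧
    (∫⁻ t in Ioo s T, ENNReal.ofReal (cmpFun s a b t ^ (1 / θ)) < ∞ → BKMFinite T u) := by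
  have hO : IsOpen (Ioo 0 T) := isOpen_Ioo
  have hac : ContinuousOn a (Ioo 0 T) := ha.continuousOn
  have hsub : ∀ t ∈ Ico s T, uIcc s t ⊆ Ioo 0 T := fun t ht => by
    rw [uIcc_of_le ht.1]
    exact fun r hr => ⟨hs.1.trans_le hr.1, hr.2.trans_lt ht.2⟩
  have hmem : ∀ t ∈ Ico s T, t ∈ Ioo 0 T := fun t ht => ⟨hs.1.trans_le ht.1, ht.2⟩
  have hA : ∀ t ∈ Ico s T, HasDerivAt (fun t => ∫ r in s..t, a r) (a t) t := fun t ht =>
    prim_deriv hO hac (hsub t ht)
  have hB : ∀ t ∈ Ico s T, HasDerivAt (fun t => ∫ r in s..t, b r) (b t) t := fun t ht =>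
    prim_deriv hO hb (hsub t ht)
  have hab : ContinuousOn (fun t => b t - a t) (Ioo 0 T) := hb.sub hac
  have hE : ContinuousOn (fun r => Real.exp (∫ q in s..r, (b q - a q))) (Ioo 0 T) := by
    intro t ht
    have hst : uIcc s t ⊆ Ioo 0 T := by
      intro r hr
      rcases le_total s t with h1 | h1
      · rw [uIcc_of_le h1] at hr
        exact ⟨hs.1.trans_le hr.1, hr.2.trans_lt ht.2⟩
      · rw [uIcc_of_ge h1] at hr
        exact ⟨ht.1.trans_le hr.1, hr.2.trans_lt hs.2⟩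
    exact (prim_deriv hO hab hst).exp.continuousAt.continuousWithinAt
  have hI : ∀ t ∈ Ico s T, HasDerivAt
      (fun t => ∫ r in s..t, Real.exp (∫ q in s..r, (b q - a q)))
      (Real.exp ((∫ r in s..t, b r) - ∫ r in s..t, a r)) t := by
    intro t ht
    have h1 := prim_deriv hO hE (hsub t ht)
    refine h1.congr_deriv ?_
    rw [intervalIntegral.integral_sub ((hb.mono (hsub t ht)).intervalIntegrable)
      ((hac.mono (hsub t ht)).intervalIntegrable)]
  have had : ∀ t ∈ Ico s T, HasDerivAt a (deriv a t) t := fun t ht =>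
    ((ha.contDiffAt (hO.mem_nhds (hmem t ht))).differentiableAt one_ne_zero).hasDerivAt
  have ha' : ContinuousOn (deriv a) (Ico s T) :=
    (ha.continuousOn_deriv_of_isOpen hO le_rfl).mono hmem
  obtain ⟨C, hC0, hC⟩ := bound hθ h hs had ha' hB (hb.mono hmem) hA hI
    intervalIntegral.integral_same hcond
  refine ⟨⟨C, hC⟩, fun hfin => ?_⟩
  have hR : ∀ t ∈ Ico s T, 0 ≤ cmpFun s a b t := by
    intro t ht
    have h1 : 0 ≤ ∫ r in s..t, Real.exp (∫ q in s..r, (b q - a q)) :=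
      intervalIntegral.integral_nonneg ht.1 fun r _ => (Real.exp_pos _).le
    unfold cmpFun
    positivity
  refine bkm_of_bound h.sol hs (F := fun t => C ^ (1 / θ) * cmpFun s a b t ^ (1 / θ)) ?_ ?_
  · intro t ht x
    have h1 := hC t ht x
    have h2 := Real.rpow_le_rpow (Real.rpow_nonneg (nrm_nonneg _) _) h1
      (show 0 ≤ 1 / θ by positivity)
    rw [← Real.rpow_mul (nrm_nonneg _), mul_one_div_cancel hθ.ne', Real.rpow_one] at h2
    have h3 := Real.mul_rpow (z := 1 / θ) hC0 (hR t ht)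
    exact h2.trans (le_of_eq h3)
  · have h1 : ∀ t, ENNReal.ofReal (C ^ (1 / θ) * cmpFun s a b t ^ (1 / θ))
        = ENNReal.ofReal (C ^ (1 / θ)) * ENNReal.ofReal (cmpFun s a b t ^ (1 / θ)) := fun t =>
      ENNReal.ofReal_mul (Real.rpow_nonneg hC0 _)
    simp only [h1]
    rw [lintegral_const_mul' _ _ ENNReal.ofReal_ne_top]
    exact ENNReal.mul_lt_top ENNReal.ofReal_lt_top hfin

end Pool.Agent.TH210.EU
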